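import Pool.Agent.Helper7.OV.Goals2
import Pool.Agent.Helper84.OV.Zero

/-!
# Project OV: from the words of the zero estimate to the conditions `Good`

The definitions of helper84 (`naX`, `naY`, `nab`, `evt`, `nrm`, `DX`) and of helper7 (`op1`, `op2`, `NN`, `len`, `DL`) are the
same up to the factors `YY`, `XX`.
-/

set_option autoImplicit false

open Finset

namespace Pool.Agent.Helper7.OV

open scoped Polynomial
open Pool.Agent.Helper84.OV (nrm DX naX naY nab evt)

theorem D1_eq (F : P2) : D1 F = XX * Pool.Agent.Helper84.OV.dX F := by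
  unfold D1 Pool.Agent.Helper84.OV.dX XX
  rw [Finset.mul_sum]
  refine Finset.sum_congr rfl fun j _ => ?_
  rw [Polynomial.C_mul_monomial]

theorem D2_eq (F : P2) : D2 F = YY * Polynomial.derivative F := rfl

theorem EE_eq : Pool.Agent.Helper84.OV.EE = XX * YY * EE := by
  unfold Pool.Agent.Helper84.OV.EE EE Pool.Agent.Helper84.OV.XX Pool.Agent.Helper84.OV.YY XX YY
  ring

theorem naX_eq (a : T3) : naX a = fun i => YY * op1 a i := by
  have hX : Pool.Agent.Helper84.OV.XX = XX := rfl
  have hY : Pool.Agent.Helper84.OV.YY = YY := rfl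
  funext i
  unfold naX op1 th1
  rw [EE_eq, hX, hY]
  fin_cases i
  · simp only [Fin.zero_eta, Matrix.cons_val_zero, D1_eq]; ring
  · simp only [Fin.mk_one, Matrix.cons_val_one, Matrix.cons_val_zero, D1_eq]; ring
  · simp only [Fin.reduceFinMk, Matrix.cons_val, D1_eq]; ring

theorem naY_eq (a : T3) : naY a = fun i => XX * op2 a i := by
  have hX : Pool.Agent.Helper84.OV.XX = XX := rfl
  have hY : Pool.Agent.Helper84.OV.YY = YY := rfl
  funext i
  unfold naY op2 th2
  rw [EE_eq, hX, hY]
  fin_cases i
  · simp only [Fin.zero_eta, Matrix.cons_val_zero, D2_eq]; ring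
  · simp only [Fin.mk_one, Matrix.cons_val_one, Matrix.cons_val_zero, D2_eq]; ring
  · simp only [Fin.reduceFinMk, Matrix.cons_val, D2_eq]; ring

theorem len_eq (F : P2) : len F = nrm F := rfl

theorem DL_iff (a b : ℕ) (F : P2) : DL a b F ↔ F.natDegree ≤ b ∧ DX a F := Iff.rfl

theorem ev_eq (x y : ℤ) (F : P2) : Pool.Agent.Helper84.OV.ev x y F = ev x y F := rfl

theorem NN_eq (p q u v : ℤ) (a : T3) : evt p q u v a = NN p q u v a := by
  unfold evt NN
  rw [ev_eq, ev_eq, ev_eq]
  ring

/-- one step raises the weight by at most `4 s` -/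
theorem good_step (hI : InvF) (hL : LinF) {s t : ℕ} {d S : ℤ} {a : T3} (hts : t ≤ s) (h : Good s t d S a) :
    Good s t d (S + 4 * s) (naX a) ∧ Good s t d (S + 4 * s) (naY a) := by
  obtain ⟨h1, h2⟩ := hI s t d S a hts h
  have hts' : (t : ℤ) ≤ s := by exact_mod_cast hts
  constructor
  · rw [naX_eq]
    have h3 := hL.2.1 s t 0 1 d _ (op1 a) YY ⟨by simp [YY], fun j => by
      unfold YY; rw [Polynomial.coeff_X]; split_ifs <;> simp⟩ h1
    refine hL.2.2 s t d _ _ _ ?_ h3
    push_cast; linarith
  · rw [naY_eq]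
    have h3 := hL.2.1 s t 1 0 d _ (op2 a) XX ⟨by simp [XX], fun j => by
      unfold XX; rw [Polynomial.coeff_C]; split_ifs <;> simp⟩ h2
    refine hL.2.2 s t d _ _ _ ?_ h3
    push_cast; linarith

theorem good_nab (hI : InvF) (hL : LinF) {s t : ℕ} {d S : ℤ} {a : T3} (hts : t ≤ s) (h : Good s t d S a) :
    ∀ w : List Bool, Good s t d (S + 4 * s * w.length) (nab w a)
  | [] => by simpa [nab] using h
  | true :: w => by
      have := (good_step hI hL hts (good_nab hI hL hts h w)).1
      have e : S + 4 * (s : ℤ) * ((true :: w).length : ℕ) = S + 4 * s * w.length + 4 * s := by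
        rw [List.length_cons]; push_cast; ring
      rw [e]
      exact this
  | false :: w => by
      have := (good_step hI hL hts (good_nab hI hL hts h w)).2
      have e : S + 4 * (s : ℤ) * ((false :: w).length : ℕ) = S + 4 * s * w.length + 4 * s := by
        rw [List.length_cons]; push_cast; ring
      rw [e]
      exact this

end Pool.Agent.Helper7.OV
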