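import Pool.Agent.Helper7.OV.Growth
import Pool.Agent.Helper84.BT.Goals

/-!
# Project OV: from the zero estimate to the bound for `p`
-/

set_option autoImplicit false

open Finset

namespace Pool.Agent.Helper7.OV

open Pool.Agent.Helper7.BM (sg)
open scoped Polynomial
open Pool.Agent.Helper84.OV (nrm DX naX naY nab evt)

/-- conclusion of EXI -/
def ExiF : Prop := ∃ K : ℕ, ∀ (s t : ℕ) (d : ℤ), (d = 1 ∨ d = -1) →
  225 ≤ t → t ≤ s → ∃ (a : T3) (S : ℤ), a ≠ 0 ∧ Good s t d S a ∧ 100 * S ≤ 198 * s * t + 200 * t ^ 2 ∧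
    ∀ i, DL (3 * s) (3 * t) (a i) ∧ len (a i) ≤ K ^ s

/-- a solution with even exponents gives the data of `Sol` -/
theorem mk_sol (hE : Pool.Agent.Helper84.BT.S_EQN) {p q s t : ℕ} (hp : p.Prime) (hq : q.Prime) (hpq : p < q)
    (h3 : 3 ≤ p) (hs : 1 ≤ s) (ht : 1 ≤ t) (hsg : sg p (2 * s) = sg q (2 * t)) :
    ∃ e1 e2 : ℤ, (e1 = 1 ∨ e1 = -1) ∧ (e2 = 1 ∨ e2 = -1) ∧
      Sol s t p q (e1 * (p : ℤ) ^ s) (e2 * (q : ℤ) ^ t) (e1 * e2) := by
  obtain ⟨heq, hlt, hts, ε, hε, hdv⟩ := hE p q s t hp.two_le hpq hq hs ht hsg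
  have hpZ : (3 : ℤ) ≤ p := by exact_mod_cast h3
  have hqZ : (p : ℤ) < q := by exact_mod_cast hpq
  have hU : (1 : ℤ) ≤ (p : ℤ) ^ s := one_le_pow₀ (by linarith)
  have hV : (1 : ℤ) ≤ (q : ℤ) ^ t := one_le_pow₀ (by linarith)
  have hq2 : (q : ℤ) ^ (2 * t + 1) = ((q : ℤ) ^ t) ^ 2 * q := by rw [pow_succ, pow_mul' _ 2 t]
  -- divisibility by `p`
  have hdp : (p : ℤ) ∣ ((q : ℤ) ^ t - 1) * ((q : ℤ) ^ t + 1) := by
    have h1 : (p : ℤ) ∣ q * (((q : ℤ) ^ t - 1) * ((q : ℤ) ^ t + 1)) := by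
      have : (q : ℤ) * (((q : ℤ) ^ t - 1) * ((q : ℤ) ^ t + 1)) =
          p * ((q : ℤ) ^ (2 * t + 1) - 1 - ((q : ℤ) - 1) * ((p : ℤ) ^ s) ^ 2) := by
        have h2 := heq
        rw [hq2] at h2 ⊢
        linear_combination h2
      rw [this]
      exact dvd_mul_right _ _
    have hpp : Prime (p : ℤ) := Nat.prime_iff_prime_int.1 hp
    rcases hpp.dvd_or_dvd h1 with h | h
    · exfalso
      have h' : p ∣ q := by exact_mod_cast h
      have := (Nat.prime_dvd_prime_iff_eq hp hq).1 h'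
      omega
    · exact h
  have hpp : Prime (p : ℤ) := Nat.prime_iff_prime_int.1 hp
  obtain ⟨e2, he2, hd2⟩ : ∃ e2 : ℤ, (e2 = 1 ∨ e2 = -1) ∧ (p : ℤ) ∣ e2 * (q : ℤ) ^ t - 1 := by
    rcases hpp.dvd_or_dvd hdp with h | h
    · exact ⟨1, Or.inl rfl, by simpa using h⟩
    · refine ⟨-1, Or.inr rfl, ?_⟩
      have h' := (dvd_neg (a := (p : ℤ))).2 h
      have : (-1 : ℤ) * (q : ℤ) ^ t - 1 = -((q : ℤ) ^ t + 1) := by ring
      rw [this]; exact h'
  refine ⟨ε, e2, hε, he2, ?_⟩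
  refine ⟨hp, hq, h3, hpq, ht, hts.le, hsg, heq, hlt, ?_, ?_, ?_, hdv, hd2, by ring, ?_⟩
  · -- `q^t ≤ 2 p^s`
    by_contra hcon
    push Not at hcon
    have hcon' : 2 * (p : ℤ) ^ s < (q : ℤ) ^ t := by exact_mod_cast hcon
    rw [hq2] at heq
    have h1 : 4 * ((p : ℤ) ^ s) ^ 2 < ((q : ℤ) ^ t) ^ 2 := by nlinarith
    have hA : (0 : ℤ) < ((p : ℤ) - 1) * q := by nlinarith
    have h2 : (((p : ℤ) - 1) * q) * (4 * ((p : ℤ) ^ s) ^ 2) < (((p : ℤ) - 1) * q) * ((q : ℤ) ^ t) ^ 2 :=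
      mul_lt_mul_of_pos_left h1 hA
    have h3 : (((p : ℤ) - 1) * q) * ((q : ℤ) ^ t) ^ 2 ≤ ((q : ℤ) - 1) * p * ((p : ℤ) ^ s) ^ 2 := by
      nlinarith
    have h4 : (((p : ℤ) - 1) * q) * 4 < ((q : ℤ) - 1) * p := by
      have hUU : (0 : ℤ) < ((p : ℤ) ^ s) ^ 2 := by positivity
      have : ((((p : ℤ) - 1) * q) * 4) * ((p : ℤ) ^ s) ^ 2 < (((q : ℤ) - 1) * p) * ((p : ℤ) ^ s) ^ 2 := by
        nlinarith
      exact lt_of_mul_lt_mul_right this hUU.le
    nlinarith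
  · rcases hε with h | h <;> subst h <;> ring
  · rcases he2 with h | h <;> subst h <;> ring
  · rcases hε with h | h <;> rcases he2 with h' | h' <;> subst h <;> subst h' <;> norm_num

/-- an irreducible polynomial vanishing at `(p,q)`, `p, q ≠ 0`, is prime to the variables -/
theorem not_dvd {G : P2} (hG : Irreducible G) {p q : ℤ} (hp : p ≠ 0) (hq : q ≠ 0)
    (h0 : Pool.Agent.Helper84.OV.ev p q G = 0) (m : ℕ) : ¬ XX ∣ G ^ m ∧ ¬ YY ∣ G ^ m := by
  have key : ∀ F : P2, Prime F → Pool.Agent.Helper84.OV.ev p q F ≠ 0 → ¬ F ∣ G ^ m := by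
    intro F hF hv hdiv
    obtain ⟨c, hc⟩ := hF.dvd_of_dvd_pow hdiv
    rcases hG.isUnit_or_isUnit hc with h | h
    · exact hF.not_unit h
    · have h1 := h.map (Pool.Agent.Helper84.OV.ev p q)
      have h2 : Pool.Agent.Helper84.OV.ev p q c = 0 := by
        rw [hc, map_mul] at h0
        rcases mul_eq_zero.1 h0 with h3 | h3
        · exact absurd h3 hv
        · exact h3
      rw [h2] at h1
      exact not_isUnit_zero h1
  constructor
  · refine key _ ?_ ?_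
    · unfold XX
      exact Polynomial.prime_C_iff.2 Polynomial.prime_X
    · rw [show XX = Pool.Agent.Helper84.OV.XX from rfl, Pool.Agent.Helper84.OV.ev_XX]
      exact hp
  · refine key _ ?_ ?_
    · unfold YY
      exact Polynomial.prime_X
    · rw [show YY = Pool.Agent.Helper84.OV.YY from rfl, Pool.Agent.Helper84.OV.ev_YY]
      exact hq

/-- arithmetic of the length bound -/
theorem len_bound {t n s : ℕ} (ht : 20000 ≤ t) (hn : 1000 * n ≤ t) (hs : s ≤ 300 * t) :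
    8400 * s ^ 4 * (3 * ((20 * (900 * t + 3 * n)) ^ n * t ^ (20 * 900 * t))) ≤ t ^ (18003 * t) := by
  have h1 : 20 * (900 * t + 3 * n) ≤ t ^ 2 := by nlinarith
  have h2 : (20 * (900 * t + 3 * n)) ^ n ≤ t ^ t := by
    calc (20 * (900 * t + 3 * n)) ^ n ≤ (t ^ 2) ^ n := Nat.pow_le_pow_left h1 n
      _ = t ^ (2 * n) := by rw [← pow_mul]
      _ ≤ t ^ t := Nat.pow_le_pow_right (by omega) (by omega)
  have h3 : s ≤ t ^ 2 := hs.trans (by nlinarith)
  have h4 : s ^ 4 ≤ t ^ 8 := by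
    calc s ^ 4 ≤ (t ^ 2) ^ 4 := Nat.pow_le_pow_left h3 4
      _ = t ^ 8 := by rw [← pow_mul]
  have h5 : 8400 * 3 ≤ t ^ 2 := by nlinarith
  calc 8400 * s ^ 4 * (3 * ((20 * (900 * t + 3 * n)) ^ n * t ^ (20 * 900 * t)))
      = (8400 * 3) * s ^ 4 * (20 * (900 * t + 3 * n)) ^ n * t ^ (20 * 900 * t) := by ring
    _ ≤ t ^ 2 * t ^ 8 * t ^ t * t ^ (20 * 900 * t) := by gcongr
    _ = t ^ (2 + 8 + t + 20 * 900 * t) := by rw [pow_add, pow_add, pow_add]
    _ ≤ t ^ (18003 * t) := Nat.pow_le_pow_right (by omega) (by omega)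

/-- the main argument -/
theorem core (hZE : Pool.Agent.Helper84.OV.S_ZE) (hEX : ExiF) (hI : InvF) (hL : LinF) (hDV : DivF) (hV : ValF) :
    ∃ D T Q : ℕ, ∀ p q s t : ℕ, ∀ e1 e2 : ℤ, (e1 = 1 ∨ e1 = -1) → (e2 = 1 ∨ e2 = -1) →
      Sol s t p q (e1 * (p : ℤ) ^ s) (e2 * (q : ℤ) ^ t) (e1 * e2) → T ≤ t → Q ≤ q → s ≤ 300 * t →
      q ≤ p ^ 300 → t ^ D ≤ q → False := by
  obtain ⟨K, hK⟩ := hEX
  obtain ⟨D, q0, t0, hZ⟩ := hZE 900 1000 (by norm_num) (by norm_num)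
  refine ⟨D + 2000000, t0 + K + 20000, q0, ?_⟩
  intro p q s t e1 e2 he1 he2 hsol hT hQ hst hqp htD
  have hd : e1 * e2 = 1 ∨ e1 * e2 = -1 := hsol.hd2
  obtain ⟨a, S, ha, hg, hS, hb⟩ := hK s t (e1 * e2) hd (by omega) hsol.hts
  have ht1 : 1 ≤ t := hsol.ht
  have htt : t ^ D ≤ q := (Nat.pow_le_pow_right ht1 (by omega)).trans htD
  obtain ⟨G, m, B, hG, hG0, hAB, hB1, hB2, hB3, w, hw, hne⟩ := hZ p q s t hsol.hp hsol.hq hsol.hpq hQ
    (hqp.trans (Nat.pow_le_pow_right hsol.hp.one_lt.le (by norm_num))) (by omega) hsol.hts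
    (hst.trans (by omega)) htt hsol.eqn e1 e2 he1 he2 a ha
    (fun i => Pool.Agent.Helper84.OV.DX.mono (m := 3 * s) (by omega) (hb i).1.2)
    (fun i => (hb i).1.1.trans (by omega))
    (fun i => by
      have h1 : len (a i) ≤ K ^ s := (hb i).2
      have h2 : K ^ s ≤ t ^ s := Nat.pow_le_pow_left (by omega) s
      have h3 : t ^ s ≤ t ^ (900 * t) := Nat.pow_le_pow_right ht1 (by omega)
      exact h1.trans (h2.trans h3))
  -- the divided triple is good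
  have hp0 : (p : ℤ) ≠ 0 := by exact_mod_cast hsol.hp.pos.ne'
  have hq0' : (q : ℤ) ≠ 0 := by exact_mod_cast hsol.hq.pos.ne'
  obtain ⟨hx, hy⟩ := not_dvd hG hp0 hq0' hG0 m
  have hgB : Good s t (e1 * e2) S B := by
    refine hDV s t (e1 * e2) S (G ^ m) B ht1 (ht1.trans hsol.hts) hx hy ?_
    have : a = fun i => G ^ m * B i := funext hAB
    rw [← this]
    exact hg
  have hgw := good_nab hI hL hsol.hts hgB w
  rcases hV s t p q _ _ _ _ _ hsol hgw with h0 | h0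
  · exact hne ((NN_eq _ _ _ _ _).trans h0)
  -- the inequality is false
  have hn : 1000 * w.length ≤ t := hw
  set n := w.length with hn'
  have hlen : ∀ i, len (nab w B i) ≤ (20 * (900 * t + 3 * n)) ^ n * t ^ (20 * 900 * t) := fun i =>
    nab_len (by omega) (fun j => ⟨hB1 j, hB2 j, hB3 j⟩) w le_rfl i
  have hsum : 8400 * s ^ 4 * (len (nab w B 0) + len (nab w B 1) + len (nab w B 2)) ≤ t ^ (18003 * t) := by
    refine le_trans (Nat.mul_le_mul_left _ ?_) (len_bound (by omega) hn hst)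
    have h0 := hlen 0
    have h1 := hlen 1
    have h2 := hlen 2
    linarith
  have ht0 : (0 : ℝ) < t := by exact_mod_cast ht1
  have hs0 : (0 : ℝ) < s := by exact_mod_cast (ht1.trans hsol.hts)
  have hlogt : 0 < Real.log t := Real.log_pos (by exact_mod_cast (by omega : 1 < t))
  -- right side
  have hR : Real.log (8400 * (s : ℝ) ^ 4 * ((len (nab w B 0) : ℝ) + len (nab w B 1) + len (nab w B 2))) ≤
      18003 * t * Real.log t := by
    have h1 : (8400 * (s : ℝ) ^ 4 * ((len (nab w B 0) : ℝ) + len (nab w B 1) + len (nab w B 2))) ≤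
        (t : ℝ) ^ (18003 * t) := by exact_mod_cast hsum
    rcases (show (0 : ℝ) ≤ 8400 * (s : ℝ) ^ 4 * ((len (nab w B 0) : ℝ) + len (nab w B 1) +
      len (nab w B 2)) by positivity).eq_or_lt with h2 | h2
    · rw [← h2, Real.log_zero]; positivity
    · refine (Real.log_le_log h2 h1).trans ?_
      rw [Real.log_pow]; push_cast; rfl
  -- left side
  have hLq : 2000000 * Real.log t ≤ Real.log q := by
    have h1 : t ^ 2000000 ≤ q := (Nat.pow_le_pow_right ht1 (by omega)).trans htD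
    have h2 : ((t : ℝ)) ^ 2000000 ≤ q := by exact_mod_cast h1
    have h3 := Real.log_le_log (by positivity) h2
    rw [Real.log_pow] at h3
    push_cast at h3
    exact h3
  have hLL : (16 / 1000 : ℝ) * t ≤ (2 * (s : ℝ) * t + 2 * (t : ℝ) ^ 2 - ((S + 4 * s * n : ℤ) : ℝ)) / s := by
    rw [le_div_iff₀ hs0]
    have h1 : (100 : ℝ) * S ≤ 198 * s * t + 200 * t ^ 2 := by exact_mod_cast hS
    have h2 : (1000 : ℝ) * n ≤ t := by exact_mod_cast hn
    push_cast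
    have h3 : (s : ℝ) * (1000 * n) ≤ s * t := mul_le_mul_of_nonneg_left h2 hs0.le
    nlinarith
  have hq1 : 0 ≤ Real.log q := by
    have : (1 : ℝ) ≤ q := by exact_mod_cast hsol.hq.one_lt.le
    exact Real.log_nonneg this
  have h5 : (16 / 1000 : ℝ) * t * (2000000 * Real.log t) ≤ 18003 * t * Real.log t := by
    calc (16 / 1000 : ℝ) * t * (2000000 * Real.log t) ≤ (16 / 1000 : ℝ) * t * Real.log q := by
          gcongr
      _ ≤ (2 * (s : ℝ) * t + 2 * (t : ℝ) ^ 2 - ((S + 4 * s * n : ℤ) : ℝ)) / s * Real.log q := by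
          gcongr
      _ ≤ _ := h0
      _ ≤ _ := hR
  have h6 : 0 < (t : ℝ) * Real.log t := mul_pos ht0 hlogt
  nlinarith

end Pool.Agent.Helper7.OV
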