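import Pool.Agent.Helper7.BM.Goals2

/-!
# Project OV (MP_57df85_nt, Bateman's equation): only finitely many odd common values

Definitions.  See `Goals1.lean` for the overview.
-/

set_option autoImplicit false

open Finset

namespace Pool.Agent.Helper7.OV

open Pool.Agent.Helper7.BM (sg)
open scoped Polynomial

/-- `ℤ[X][Y]`: polynomials in `Y` with coefficients in `ℤ[X]` -/
abbrev P2 := Polynomial (Polynomial ℤ)

/-- the variable `X` -/
noncomputable def XX : P2 := Polynomial.C Polynomial.X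

/-- the variable `Y` -/
noncomputable def YY : P2 := Polynomial.X

/-- the coefficient of `X^i Y^j` -/
noncomputable def co (F : P2) (i j : ℕ) : ℤ := (F.coeff j).coeff i

/-- the value at `X = x`, `Y = y` -/
noncomputable def ev (x y : ℤ) (F : P2) : ℤ := F.evalEval x y

/-- degree at most `a` in `X` and at most `b` in `Y` -/
def DL (a b : ℕ) (F : P2) : Prop := F.natDegree ≤ b ∧ ∀ j, (F.coeff j).natDegree ≤ a

/-- the sum of the absolute values of the coefficients of a polynomial in one variable -/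
noncomputable def len1 (f : Polynomial ℤ) : ℕ := ∑ i ∈ f.support, (f.coeff i).natAbs

/-- the sum of the absolute values of the coefficients -/
noncomputable def len (F : P2) : ℕ := ∑ j ∈ F.support, len1 (F.coeff j)

/-- `X ∂/∂X` -/
noncomputable def D1 (F : P2) : P2 :=
  ∑ j ∈ range (F.natDegree + 1), Polynomial.monomial j (Polynomial.X * Polynomial.derivative (F.coeff j))

/-- `Y ∂/∂Y` -/
noncomputable def D2 (F : P2) : P2 := Polynomial.X * Polynomial.derivative F

/-! ## Series -/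

/-- formal series `∑ m(k,l) X^k Y^l`, `k, l ∈ ℤ` (no condition on the support) -/
abbrev Ser := ℤ → ℤ → ℚ

/-- a polynomial as a series -/
noncomputable def cf (F : P2) : Ser := fun k l => if 0 ≤ k ∧ 0 ≤ l then (co F k.toNat l.toNat : ℚ) else 0

/-- the product of a polynomial and a series -/
noncomputable def act (F : P2) (m : Ser) : Ser := fun k l =>
  ∑ j ∈ range (F.natDegree + 1), ∑ i ∈ range ((F.coeff j).natDegree + 1), (co F i j : ℚ) * m (k - i) (l - j)

/-- `X ∂/∂X` on series -/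
def d1 (m : Ser) : Ser := fun k l => (k : ℚ) * m k l

/-- `Y ∂/∂Y` on series -/
def d2 (m : Ser) : Ser := fun k l => (l : ℚ) * m k l

/-- the coefficients of `(1 - x)^(1/2)` -/
def al (i : ℕ) : ℚ := (Nat.centralBinom i : ℚ) / (4 ^ i * (1 - 2 * (i : ℚ)))

/-- the coefficients of `(1 - y)^(-1/2)` -/
def be (j : ℕ) : ℚ := (Nat.centralBinom j : ℚ) / 4 ^ j

/-- `((1 - Y/X) / (1 - Y))^(1/2)`: the coefficient of `X^(-i) Y^(i+j)` is `al i * be j` -/
def fq : Ser := fun k l => if k ≤ 0 ∧ 0 ≤ k + l then al (-k).toNat * be (k + l).toNat else 0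

/-- `((1 - X/Y) / (1 - X))^(1/2)`: the coefficient of `X^(i+j) Y^(-i)` is `al i * be j` -/
def fp : Ser := fun k l => if l ≤ 0 ∧ 0 ≤ k + l then al (-l).toNat * be (k + l).toNat else 0

/-- `((1 - 1/X) / (1 - 1/Y))^(1/2)`: the coefficient of `X^(-i) Y^(-j)` is `al i * be j` -/
def fi : Ser := fun k l => if k ≤ 0 ∧ l ≤ 0 then al (-k).toNat * be (-l).toNat else 0

/-- all coefficients of weight `u k + v l < T` are zero -/
def Cond (u v T : ℤ) (m : Ser) : Prop := ∀ k l : ℤ, u * k + v * l < T → m k l = 0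

/-! ## Triples and derivations -/

/-- triples `(A, B, C)`, they stand for `A + B U + C V` -/
abbrev T3 := Fin 3 → P2

/-- `2 (1-X) (1-Y) (X-Y)` -/
noncomputable def EE : P2 := 2 * (1 - XX) * (1 - YY) * (XX - YY)

/-- `EE * (X ∂/∂X of the logarithm of 1, U, V)` -/
noncomputable def th1 : T3 := ![0, YY * (1 - XX) * (1 - YY), XX * (1 - YY) ^ 2]

/-- `EE * (Y ∂/∂Y of the logarithm of 1, U, V)` -/
noncomputable def th2 : T3 := ![0, -(YY * (1 - XX) ^ 2), -(XX * (1 - XX) * (1 - YY))]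

/-- `EE X ∂/∂X` on triples -/
noncomputable def op1 (a : T3) : T3 := fun i => EE * D1 (a i) + th1 i * a i

/-- `EE Y ∂/∂Y` on triples -/
noncomputable def op2 (a : T3) : T3 := fun i => EE * D2 (a i) + th2 i * a i

/-- words in `op1` (`true`) and `op2` (`false`) -/
noncomputable def opw : List Bool → T3 → T3
  | [], a => a
  | true :: w, a => opw w (op1 a)
  | false :: w, a => opw w (op2 a)

/-- words in `D1` (`true`) and `D2` (`false`) -/
noncomputable def Dw : List Bool → P2 → P2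
  | [], F => F
  | true :: w, F => Dw w (D1 F)
  | false :: w, F => Dw w (D2 F)

/-- all derivatives of order `< m` of `F` vanish at `(p,q)` -/
def Van (p q : ℤ) (m : ℕ) (F : P2) : Prop := ∀ w : List Bool, w.length < m → ev p q (Dw w F) = 0

/-- the derivation along the curve `psi = 0` -/
noncomputable def Dp (psi G : P2) : P2 := D2 psi * D1 G - D1 psi * D2 G

/-- `Dp psi` on triples -/
noncomputable def opp (psi : P2) (a : T3) : T3 := fun i => D2 psi * op1 a i - D1 psi * op2 a i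

/-- the conditions on the auxiliary triple (`S` is the bound for the weight; `X` has weight `t`, `Y` has weight `s`) -/
structure Good (s t : ℕ) (d S : ℤ) (a : T3) : Prop where
  c1 : Cond 0 1 (2 * t) (fun k l => cf (a 0) k l + act (a 1) fq k l)
  c2 : Cond 0 1 t (cf (a 2))
  c3 : Cond 1 0 (2 * t) (fun k l => cf (a 0) k l + act (a 2) fp k l)
  c4 : Cond 1 0 (2 * t - s) (cf (a 1))
  c5 : Cond (-t) (-s) (-S) (cf (a 0))
  c6 : Cond (-t) (-s) (-(S - s * t)) (fun k l => cf (a 2) k l + d * act (a 1) fi k l)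
  c7 : Cond (-t) (-s) (-(S + s * t)) (cf (a 1))

/-- the value of the linear form `A + B w1 + C w2` at `(p,q)` -/
noncomputable def NN (p q w1 w2 : ℤ) (a : T3) : ℤ := ev p q (a 0) + ev p q (a 1) * w1 + ev p q (a 2) * w2

/-- a solution of Bateman's equation with exponents `2s`, `2t`, with the signs `w1 = ± p^s`, `w2 = ± q^t`, `d = ± 1` -/
structure Sol (s t p q : ℕ) (w1 w2 d : ℤ) : Prop where
  hp : p.Prime
  hq : q.Prime
  h3 : 3 ≤ p
  hpq : p < q
  ht : 1 ≤ t
  hts : t ≤ s
  hsg : sg p (2 * s) = sg q (2 * t)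
  eqn : ((q : ℤ) - 1) * p * ((p : ℤ) ^ s) ^ 2 = ((p : ℤ) - 1) * (q : ℤ) ^ (2 * t + 1) + ((q : ℤ) - p)
  lt : p ^ s < q ^ t
  le2 : q ^ t ≤ 2 * p ^ s
  sq1 : w1 ^ 2 = ((p : ℤ) ^ s) ^ 2
  sq2 : w2 ^ 2 = ((q : ℤ) ^ t) ^ 2
  dv1 : (q : ℤ) ∣ w1 - 1
  dv2 : (p : ℤ) ∣ w2 - 1
  hd : w1 * w2 = d * ((p : ℤ) ^ s * (q : ℤ) ^ t)
  hd2 : d = 1 ∨ d = -1

end Pool.Agent.Helper7.OV
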