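import Pool.Agent.Helper7.OV.Core
import Pool.Agent.Helper84.BT.TH1
import Pool.Agent.Helper7.BM.Fin2

/-!
# Project OV: the bound for the smaller prime and the finiteness theorem
-/

set_option autoImplicit false

open Finset Filter Topology

namespace Pool.Agent.Helper7.OV

open Pool.Agent.Helper7.BM (sg ExpBound)
open Pool.Agent.Helper84.BT (S_CB S_RSQ S_RVA S_RUN S_EVN S_PAR S_EQN S_TH1 S_TH3)

/-- large primes have small exponents -/
theorem exp_small (C : ℝ) (hC : 0 < C) (D : ℕ) : ∃ Q : ℕ, ∀ q t : ℕ, Q ≤ q → (t : ℝ) ≤ C * Real.log q ^ 115 →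
    t ^ D ≤ q := by
  have h1 : (fun x : ℝ => Real.log x ^ (115 * D)) =o[atTop] (id : ℝ → ℝ) := Real.isLittleO_pow_log_id_atTop
  have hc : (0 : ℝ) < 1 / C ^ D := by positivity
  have h2 := h1.def hc
  rw [eventually_atTop] at h2
  obtain ⟨x0, hx0⟩ := h2
  refine ⟨⌈x0⌉₊ + 1, ?_⟩
  intro q t hq ht
  have hq1 : (1 : ℝ) ≤ q := by
    have : 1 ≤ q := by omega
    exact_mod_cast this
  have hqx : x0 ≤ q := (Nat.le_ceil x0).trans (by exact_mod_cast (by omega : ⌈x0⌉₊ ≤ q))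
  have h3 := hx0 q hqx
  have hlog : 0 ≤ Real.log q := Real.log_nonneg hq1
  rw [Real.norm_of_nonneg (by positivity), id, Real.norm_of_nonneg (by positivity)] at h3
  have h4 : (t : ℝ) ^ D ≤ (C * Real.log q ^ 115) ^ D := pow_le_pow_left₀ (by positivity) ht D
  have h5 : (C * Real.log q ^ 115) ^ D = C ^ D * Real.log q ^ (115 * D) := by
    rw [mul_pow, ← pow_mul]
  have h6 : C ^ D * Real.log q ^ (115 * D) ≤ C ^ D * (1 / C ^ D * q) := by
    gcongr
  have h7 : C ^ D * (1 / C ^ D * (q : ℝ)) = q := by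
    field_simp
  have h8 : (t : ℝ) ^ D ≤ q := by
    rw [← h7]
    exact (h4.trans h5.le).trans h6
  exact_mod_cast h8

/-- the smaller prime is bounded -/
theorem bound_p (hZE : Pool.Agent.Helper84.OV.S_ZE) (hEX : ExiF) (hI : InvF) (hL : LinF) (hDV : DivF) (hV : ValF)
    (hE : ExpBound) (hCB : S_CB) (hRSQ : S_RSQ) (hRVA : S_RVA) (hRUN : S_RUN) (hEQN : S_EQN) (hTH1 : S_TH1) :
    ∃ P : ℕ, ∀ p q s t : ℕ, p.Prime → q.Prime → p < q → 1 ≤ s → 1 ≤ t → sg p (2 * s) = sg q (2 * t) → p ≤ P := by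
  obtain ⟨D, T, Q, hcore⟩ := core hZE hEX hI hL hDV hV
  obtain ⟨C, hC, hE⟩ := hE
  obtain ⟨Q', hQ'⟩ := exp_small C hC D
  refine ⟨Q + Q' + 4 ^ (300 * T) + 3, ?_⟩
  intro p q s t hp hq hpq hs ht hsg
  by_contra hcon
  push Not at hcon
  have hp2 := hp.two_le
  have h4 : 0 < 4 ^ (300 * T) := by positivity
  obtain ⟨e1, e2, he1, he2, hsol⟩ := mk_sol hEQN hp hq hpq (by omega) hs ht hsg
  have hTH := hTH1 p q s t hp2 hpq hq hs ht hsg
  have hqp : q ≤ p ^ 300 := by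
    calc q ≤ (4 * p) ^ 100 := hTH.le
      _ ≤ (p ^ 3) ^ 100 := by
          apply Nat.pow_le_pow_left
          nlinarith [Nat.mul_le_mul hp2 hp2]
      _ = p ^ 300 := by rw [← pow_mul]
  have hst : s < 300 * t := by
    have h1 : p ^ s < p ^ (300 * t) := by
      calc p ^ s < q ^ t := hsol.lt
        _ ≤ (p ^ 300) ^ t := Nat.pow_le_pow_left hqp t
        _ = p ^ (300 * t) := by rw [← pow_mul]
    exact (Nat.pow_lt_pow_iff_right hp.one_lt).1 h1
  have htT : T ≤ t := by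
    by_contra hlt
    push Not at hlt
    have hts : t < s := (hEQN p q s t hp2 hpq hq hs ht hsg).2.2.1
    have h1 := hRUN hCB hRSQ hRVA p q s t hp2 hpq ht hts hsg
    have h2 : 4 ^ s ≤ 4 ^ (300 * T) := Nat.pow_le_pow_right (by norm_num) (by omega)
    omega
  have htD : t ^ D ≤ q := by
    refine hQ' q t (by omega) ?_
    have h1 := hE p q (2 * s) (2 * t) hp hq hpq (by omega) (by omega) hsg
    refine le_trans ?_ h1
    have : t ≤ 2 * s := by have := hsol.hts; omega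
    exact_mod_cast this
  exact hcore p q s t e1 e2 he1 he2 hsol htT (by omega) (by omega) hqp htD

/-- all solutions with odd common value are bounded -/
theorem bound_all (hP : ∃ P : ℕ, ∀ p q s t : ℕ, p.Prime → q.Prime → p < q → 1 ≤ s → 1 ≤ t →
      sg p (2 * s) = sg q (2 * t) → p ≤ P) (hEVN : S_EVN) (hPAR : S_PAR) (hTH3 : S_TH3) :
    ∃ M : ℕ, ∀ p q a b : ℕ, p.Prime → q.Prime → p < q → 1 ≤ a → 1 ≤ b → sg p a = sg q b → Odd (sg p a) →
      sg p a ≤ M := by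
  obtain ⟨P, hP⟩ := hP
  obtain ⟨C, hC⟩ := hTH3
  refine ⟨⌈Real.exp (|C| * Real.log (2 * (P + 1)) ^ 116)⌉₊, ?_⟩
  intro p q a b hp hq hpq ha hb hN hodd
  have hpar := hPAR hEVN p q a b hp hq hpq ha hb hN
  obtain ⟨s, t, hs, ht, hs2, ht2⟩ := hpar.2 (hpar.1.1 hodd)
  have h1 : p ≤ P := hP p q s t hp hq hpq hs ht (by rw [← hs2, ← ht2]; exact hN)
  have h2 := (hC p q a b hp hq hpq ha hb hN hodd).2
  have hpR : (2 : ℝ) ≤ p := by exact_mod_cast hp.two_le
  have hpP : (p : ℝ) ≤ P := by exact_mod_cast h1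
  have h3 : Real.log (2 * p) ≤ Real.log (2 * (P + 1)) := Real.log_le_log (by linarith) (by linarith)
  have h4 : 0 ≤ Real.log (2 * p) := Real.log_nonneg (by linarith)
  have h5 : (sg p a : ℝ) ≤ Real.exp (|C| * Real.log (2 * (P + 1)) ^ 116) := by
    refine h2.trans (Real.exp_le_exp.2 ?_)
    calc C * Real.log (2 * p) ^ 116 ≤ |C| * Real.log (2 * p) ^ 116 := by
          gcongr
          exact le_abs_self C
      _ ≤ |C| * Real.log (2 * (P + 1)) ^ 116 := by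
          gcongr
  have h6 : (sg p a : ℝ) ≤ ⌈Real.exp (|C| * Real.log (2 * (P + 1)) ^ 116)⌉₊ := h5.trans (Nat.le_ceil _)
  exact_mod_cast h6

theorem le_sg {x m : ℕ} (hm : 1 ≤ m) : x ≤ sg x m := by
  unfold sg
  have h1 : x ^ 1 ≤ ∑ i ∈ range (m + 1), x ^ i :=
    single_le_sum (f := fun i => x ^ i) (fun _ _ => Nat.zero_le _) (mem_range.2 (by omega))
  simpa using h1

theorem exp_le_sg {x m : ℕ} (hx : 2 ≤ x) : m ≤ sg x m := by
  have h1 : x ^ m ≤ sg x m := by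
    unfold sg
    exact single_le_sum (f := fun i => x ^ i) (fun _ _ => Nat.zero_le _) (mem_range.2 (by omega))
  exact (Nat.lt_pow_self hx).le.trans h1

/-- the finiteness theorem -/
theorem finite_of_bound (h : ∃ M : ℕ, ∀ p q a b : ℕ, p.Prime → q.Prime → p < q → 1 ≤ a → 1 ≤ b →
      sg p a = sg q b → Odd (sg p a) → sg p a ≤ M) :
    {x : ℕ × ℕ × ℕ × ℕ | x.1.Prime ∧ x.2.2.1.Prime ∧ x.1 < x.2.2.1 ∧ 1 ≤ x.2.1 ∧ 1 ≤ x.2.2.2 ∧
      sg x.1 x.2.1 = sg x.2.2.1 x.2.2.2 ∧ Odd (sg x.1 x.2.1)}.Finite := by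
  obtain ⟨M, hM⟩ := h
  refine Set.Finite.subset (Finset.finite_toSet
    (range (M + 1) ×ˢ (range (M + 1) ×ˢ (range (M + 1) ×ˢ range (M + 1))))) ?_
  rintro ⟨p, a, q, b⟩ ⟨h1, h2, h3, h4, h5, h6, h7⟩
  simp only at h1 h2 h3 h4 h5 h6 h7
  have h8 := hM p q a b h1 h2 h3 h4 h5 h6 h7
  have h9 : p ≤ sg p a := le_sg h4
  have h10 : a ≤ sg p a := exp_le_sg h1.two_le
  have h11 : q ≤ sg q b := le_sg h5
  have h12 : b ≤ sg q b := exp_le_sg h2.two_le
  simp only [coe_product, coe_range, Set.mem_prod, Set.mem_Iio]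
  omega

end Pool.Agent.Helper7.OV
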