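import Pool.Agent.Helper7.OV.Defs

/-!
# Project OV (MP_57df85_nt, Bateman's equation): only finitely many odd common values

THEOREM.  There are only finitely many solutions of `σ(p,a) = σ(q,b)` (`p < q` primes) with an odd common value.

Overview.  Odd common value means `a = 2s`, `b = 2t` (project BT, packet PAR).  `U = p^s`, `V = q^t`, `P = (p,q)`, and
(E)  `p (q-1) U^2 - q (p-1) V^2 = q - p`, i.e. `X (Y-1) U^2 - Y (X-1) V^2 = Y - X` at `X = p`, `Y = q`.
So `w1 = ± U ≡ 1 mod q`, `w2 = ± V ≡ 1 mod p`, and with the algebraic functions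
`f = ((1-Y/X)/(1-Y))^(1/2)`, `g = ((1-X/Y)/(1-X))^(1/2)`, `h = ((1-1/X)/(1-1/Y))^(1/2)` (at `P`):
`w1 ≡ f mod q^(2t+1)`, `w2 ≡ g mod p^(2s+1)`, `U/V = h (1 + O(V^(-2)))`.

(1) Auxiliary triple.  `(A,B,C) ≠ 0`, polynomials in BOTH variables, `A + B f = O(Y^(2t))`, `C = O(Y^t)`, `A + C g = O(X^(2t))`,
`B = O(X^(2t-s))`, and for the weights `t` of `X` and `s` of `Y`: `A` has weight at most `S`, `C + d B h` has weight at most `S - st`,
with `S ≤ 1.98 st + 2 t²`.  Siegel's lemma gives coefficients `K^s` with an ABSOLUTE constant `K`.  (`Good`)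
(2) `N = A(P) + B(P) w1 + C(P) w2` is divisible by `(pq)^(2t)` and at most `K^s q^(S/s)`, so `N = 0`.  The conditions are invariant
under `op1`, `op2` (multiples of `X ∂/∂X`, `Y ∂/∂Y` on `A + B U + C V`), so the same holds for all derivatives of order `≤ t/300`.
(3) The Wronskian `D` of `A, B U, C V` is a nonzero polynomial of height `K^t` and vanishes at `P` to the order `t/300`.
(4) Zero estimate: so `P` lies on one of finitely many curves `psi = 0`.
(5) On every fixed curve: division of the triple by the power of `psi`, Wronskian along the curve: `p ≤ K_psi`.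

Every packet is one `Prop` `S_XXX`; its docstring is a complete proof.  Other packets named in the statement are hypotheses.
Deliver `Pool/Agent/<Seat>/OV/XXX.lean`, namespace `Pool.Agent.<Seat>.OV.XXX`, theorem `t : S_XXX`.

This file: part I, polynomials, series, invariance of the conditions.
-/

set_option autoImplicit false

open Finset

namespace Pool.Agent.Helper7.OV

open scoped Polynomial

/-- PACKET LEN (1.2 h).
Proof.  `len F` is the sum of `|co F i j|` over any finite set of pairs containing the support.  Product: the coefficient of `F G` is a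
convolution (as for the 1-norm; for `Polynomial ℤ` first, then again for the outer polynomial).  `co (D1 F) i j = i co F i j` with `i ≤ a`
if it is not zero.  The value: `|∑ co F i j x^i y^j| ≤ ∑ |co F i j| x^a y^b`. -/
def S_LEN : Prop :=
  (∀ F G : P2, len (F + G) ≤ len F + len G) ∧
  (∀ F G : P2, len (F * G) ≤ len F * len G) ∧
  (∀ F : P2, len (-F) = len F) ∧
  (∀ (F : P2) (n : ℕ), len (F ^ n) ≤ len F ^ n) ∧
  (∀ F : P2, F ≠ 0 → 1 ≤ len F) ∧
  (∀ (F : P2) (a b : ℕ), DL a b F → len (D1 F) ≤ a * len F ∧ len (D2 F) ≤ b * len F) ∧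
  (∀ (F : P2) (a b x y : ℕ), DL a b F → 1 ≤ x → 1 ≤ y → |ev x y F| ≤ len F * x ^ a * y ^ b) ∧
  (∀ F : P2, ∀ i j : ℕ, |co F i j| ≤ len F) ∧
  (∀ (F : P2) (a b H : ℕ), DL a b F → (∀ i j : ℕ, |co F i j| ≤ H) → len F ≤ (a + 1) * (b + 1) * H)

/-- PACKET DEG (1 h).  Degrees.
Proof.  `DL a b F` iff `co F i j ≠ 0` implies `i ≤ a`, `j ≤ b`.  The rest is immediate (`natDegree_mul_le`, `natDegree_add_le`, ...); for `EE`,
`th1`, `th2` expand the products (`EE = 2 (X - Y - X² + Y² + X²Y - XY²)`), or use submultiplicativity of `len`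
(`len (1 - XX) = 2`). -/
def S_DEG : Prop :=
  (∀ (F : P2) (a b : ℕ), DL a b F ↔ ∀ i j : ℕ, co F i j ≠ 0 → i ≤ a ∧ j ≤ b) ∧
  (∀ (F G : P2) (a b a' b' : ℕ), DL a b F → DL a' b' G → DL (a + a') (b + b') (F * G)) ∧
  (∀ (F G : P2) (a b : ℕ), DL a b F → DL a b G → DL a b (F + G) ∧ DL a b (F - G)) ∧
  (∀ (F : P2) (a b a' b' : ℕ), DL a b F → a ≤ a' → b ≤ b' → DL a' b' F) ∧
  (∀ (F : P2) (a b : ℕ), DL a b F → DL a b (D1 F) ∧ DL a b (D2 F)) ∧
  (∀ (F : P2) (a b n : ℕ), DL a b F → DL (n * a) (n * b) (F ^ n)) ∧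
  (DL 2 2 EE ∧ len EE ≤ 16) ∧
  (∀ i : Fin 3, DL 2 2 (th1 i) ∧ DL 2 2 (th2 i) ∧ len (th1 i) ≤ 8 ∧ len (th2 i) ≤ 8)

/-- PACKET DER (1 h).  `D1`, `D2` are derivations.
Proof.  `(D1 F).coeff j = X (F.coeff j)'`; `D2 F = Y F'`.  Leibniz' rule for `D1`: compare the coefficients of `Y^j` (a convolution). -/
def S_DER : Prop :=
  (∀ F G : P2, D1 (F + G) = D1 F + D1 G ∧ D2 (F + G) = D2 F + D2 G) ∧
  (∀ F : P2, D1 (-F) = -D1 F ∧ D2 (-F) = -D2 F) ∧
  (∀ F G : P2, D1 (F * G) = D1 F * G + F * D1 G ∧ D2 (F * G) = D2 F * G + F * D2 G) ∧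
  (D1 XX = XX ∧ D1 YY = 0 ∧ D2 XX = 0 ∧ D2 YY = YY) ∧
  (∀ n : ℤ, D1 (Polynomial.C (Polynomial.C n)) = 0 ∧ D2 (Polynomial.C (Polynomial.C n)) = 0) ∧
  (∀ (F : P2) (i j : ℕ), co (D1 F) i j = i * co F i j ∧ co (D2 F) i j = j * co F i j) ∧
  (∀ (F : P2) (x y : ℤ), ev x y (D2 F) = y * ev x y (Polynomial.derivative F)) ∧
  (∀ (f : Polynomial ℤ), D1 (Polynomial.C f) = Polynomial.C (Polynomial.X * Polynomial.derivative f) ∧
    D2 (Polynomial.C f) = 0)

/-- PACKET ACT (2 h).  The series are a module over the polynomials, `d1`, `d2` are compatible derivations.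
Proof.  `act F m k l = ∑ co F i j * m (k-i) (l-j)` over any finite set of pairs `(i,j)` containing the support of `F` (additivity in `F`
follows, and in `m` it is clear).  Write `F` as a sum of monomials `c X^i Y^j`, for which `act` is `c` times the translation by `(i,j)`: then the
product formula and Leibniz' rule are clear.  `act F (cf G) = cf (F G)`: convolution of the coefficients. -/
def S_ACT : Prop :=
  (∀ (F G : P2) (m : Ser), act (F + G) m = fun k l => act F m k l + act G m k l) ∧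
  (∀ (F : P2) (m m' : Ser), act F (fun k l => m k l + m' k l) = fun k l => act F m k l + act F m' k l) ∧
  (∀ (F : P2) (c : ℚ) (m : Ser), act F (fun k l => c * m k l) = fun k l => c * act F m k l) ∧
  (∀ (F : P2) (m : Ser), act (-F) m = fun k l => -act F m k l) ∧
  (∀ (F G : P2) (m : Ser), act (F * G) m = act F (act G m)) ∧
  (∀ F G : P2, act F (cf G) = cf (F * G)) ∧
  (∀ m : Ser, act 1 m = m) ∧
  (∀ (F G : P2) (k l : ℤ), cf (F + G) k l = cf F k l + cf G k l) ∧
  (∀ (F : P2) (m : Ser), d1 (act F m) = fun k l => act (D1 F) m k l + act F (d1 m) k l) ∧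
  (∀ (F : P2) (m : Ser), d2 (act F m) = fun k l => act (D2 F) m k l + act F (d2 m) k l) ∧
  (∀ F : P2, d1 (cf F) = cf (D1 F) ∧ d2 (cf F) = cf (D2 F)) ∧
  (∀ (m : Ser) (k l : ℤ), act XX m k l = m (k - 1) l ∧ act YY m k l = m k (l - 1))

/-- PACKET WT (0.4 h).
Proof.  In `∑ co F i j m (k-i) (l-j)` every term with `co F i j ≠ 0` has `u (k-i) + v (l-j) ≤ u k + v l - c < T`. -/
def S_WT : Prop := ∀ (u v T c : ℤ) (F : P2) (m : Ser), (∀ i j : ℕ, co F i j ≠ 0 → c ≤ u * i + v * j) →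
  Cond u v T m → Cond u v (T + c) (act F m)

/-- PACKET ODE (from ACT, 2 h).  The differential equations of `f`, `g`, `h`.
Proof.  Recurrences: `2 (i+1) al (i+1) = (2i-1) al i` and `2 (j+1) be (j+1) = (2j+1) be j` (`Nat.succ_mul_centralBinom_succ`).
`f`: at `X^(-i) Y^(i+j)` the coefficient is `al i be j`.  (a) `2 (X-Y) d1 f = Y f`: at the exponent `(1-(i+1), i+1+j)` this is
`-2 (i+1) al (i+1) be j + 2 i al i be j = al i be j` (and trivially for the other exponents; also `i = -1`).  Times `(1-X)(1-Y)`: first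
equation.  (b) `d2 f = e1 + e2` with the coefficients `i al i be j` and `j al i be j`; `2 (X-Y) e1 = -Y f` (by (a), `e1 = -d1 f`) and
`2 (1-Y) e2 = Y f`, so `2 (X-Y)(1-Y) d2 f = -(1-Y) Y f + (X-Y) Y f = Y (X-1) f`; times `(1-X)`.
`g` is `f` with `X`, `Y` exchanged (`fp k l = fq l k`; `EE` changes the sign).  `h`: `2 (X-1) d1 h = h` and `2 (1-Y) d2 h = h`
(coefficient `al i be j` at `X^(-i) Y^(-j)`), and `th1 1 - th1 2 = -(1-Y)(X-Y)`, `th2 1 - th2 2 = (1-X)(X-Y)` (`ring`). -/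
def S_ODE : Prop := S_ACT →
  act EE (d1 fq) = act (th1 1) fq ∧ act EE (d2 fq) = act (th2 1) fq ∧
  act EE (d1 fp) = act (th1 2) fp ∧ act EE (d2 fp) = act (th2 2) fp ∧
  act EE (d1 fi) = act (th1 1 - th1 2) fi ∧ act EE (d2 fi) = act (th2 1 - th2 2) fi

/-- the six differential equations -/
def Ode : Prop :=
  act EE (d1 fq) = act (th1 1) fq ∧ act EE (d2 fq) = act (th2 1) fq ∧
  act EE (d1 fp) = act (th1 2) fp ∧ act EE (d2 fp) = act (th2 2) fp ∧
  act EE (d1 fi) = act (th1 1 - th1 2) fi ∧ act EE (d2 fi) = act (th2 1 - th2 2) fi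

/-- PACKET INV (1.8 h).  The conditions are invariant under `op1`, `op2`.
Proof (for `op1`; `op2` is the same).  `A' = EE D1 A`, `B' = EE D1 B + th1 1 B`, `C' = EE D1 C + th1 2 C`.
c1: `m = cf A + act B fq`; `d1 m = cf (D1 A) + act (D1 B) fq + act B (d1 fq)` and `act EE (act B (d1 fq)) = act B (act (th1 1) fq)`, so
`cf A' + act B' fq = act EE (d1 m)`; `Cond` is kept by `d1` and by `act EE` (WT with `c = 0`).  c3: the same with `C`, `fp`, `th1 2`.
c6: `m = cf C + d act B fi`; in the same way `cf C' + d act B' fi = act EE (d1 m) + act (th1 2) m` (because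
`act EE (d1 fi) = act (th1 1 - th1 2) fi`).  c2, c4, c5, c7: `cf (EE D1 F + G F) = act EE (d1 (cf F)) + act G (cf F)`.
Weights: the monomials of `EE`, `th1 i`, `th2 i` have exponents `(i,j)` with `i, j ≥ 0` and `t i + s j ≤ t + 2 s` (they are
among `X, Y, X², XY, Y², X²Y, XY²`, and `t ≤ s`). -/
def S_INV : Prop := S_ACT → S_WT → S_DER → Ode → ∀ (s t : ℕ) (d S : ℤ) (a : T3), t ≤ s → Good s t d S a →
  Good s t d (S + t + 2 * s) (op1 a) ∧ Good s t d (S + t + 2 * s) (op2 a)

/-- PACKET LIN (0.8 h).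
Proof.  Additivity is clear.  Multiplication by `G`: WT (for c1, c2, c3, c4 with `c = 0`; for c5, c6, c7 with `c = -(x t + y s)`),
`cf (G F) = act G (cf F)`, `act (G F) m = act G (act F m)`.  Monotonicity in `S` is clear. -/
def S_LIN : Prop := S_ACT → S_WT → S_DEG →
  (∀ (s t : ℕ) (d S : ℤ) (a b : T3), Good s t d S a → Good s t d S b → Good s t d S (fun i => a i + b i) ∧
    Good s t d S (fun i => a i - b i)) ∧
  (∀ (s t x y : ℕ) (d S : ℤ) (a : T3) (G : P2), DL x y G → Good s t d S a →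
    Good s t d (S + x * t + y * s) (fun i => G * a i)) ∧
  (∀ (s t : ℕ) (d S S' : ℤ) (a : T3), S ≤ S' → Good s t d S a → Good s t d S' a)

/-- PACKET DIVC (1.8 h).  Division of a series by a polynomial.
Proof.  `wt (k,l) = u k + v l`.  Suppose `m z ≠ 0` for some `z` with `wt z < T`; let `n0` be the smallest weight of such a `z` (it exists by the
finiteness), `M0` = the finite set of the `z` of weight `n0` with `m z ≠ 0`.  Let `c ≤ 0` be the smallest weight of the monomials of `F`, `F0`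
the set of the monomials of weight `c`.  Let `z1`, `z2` be the lexicographically largest elements of `F0` and `M0`.  Then
`act F m (z1 + z2) = ∑ co F i j m (z1 + z2 - (i,j))`: a nonzero term has `wt (i,j) ≥ c` and `wt (z1+z2-(i,j)) ≥ n0` (weights `< n0` give `m = 0`),
so both are equalities, and by the choice of `z1`, `z2` only `(i,j) = z1` remains.  So `act F m (z1+z2) ≠ 0`, of weight `c + n0 < T`. -/
def S_DIVC : Prop := ∀ (u v T : ℤ) (F : P2) (m : Ser), (∃ i j : ℕ, co F i j ≠ 0 ∧ u * i + v * j ≤ 0) →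
  (∀ n : ℤ, {z : ℤ × ℤ | u * z.1 + v * z.2 ≤ n ∧ m z.1 z.2 ≠ 0}.Finite) →
  Cond u v T (act F m) → Cond u v T m

/-- PACKET DIVG (from DIVC and ACT, 1.5 h).
Proof.  `XX ∤ F`: there is `j` with `co F 0 j ≠ 0`; `YY ∤ F`: there is `i` with `co F i 0 ≠ 0`; for the weights `(-t,-s)` any monomial of `F` has
weight `≤ 0`.  DIVC for the seven series (`cf (F A) + act (F B) fq = act F (cf A + act B fq)` etc.).  Finiteness: `cf A` has finite support;
`act B fq (k,l) ≠ 0` implies `0 ≤ l`, `-l ≤ k ≤ deg_X B` (so finitely many with `l ≤ n`); `act C fp`: symmetric;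
`act B fi (k,l) ≠ 0` implies `k ≤ deg_X B`, `l ≤ deg_Y B` (so finitely many with `t k + s l ≥ -n`, as `s, t ≥ 1`). -/
def S_DIVG : Prop := S_DIVC → S_ACT → ∀ (s t : ℕ) (d S : ℤ) (F : P2) (a : T3), 1 ≤ t → 1 ≤ s → ¬ XX ∣ F → ¬ YY ∣ F →
  Good s t d S (fun i => F * a i) → Good s t d S a

end Pool.Agent.Helper7.OV
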