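import Pool.Agent.Helper7.OV.Goals1

/-!
# Project OV, parts II and III: the values of the linear forms, the auxiliary triple
-/

set_option autoImplicit false

open Finset

namespace Pool.Agent.Helper7.OV

open Pool.Agent.Helper7.BM (sg)
open scoped Polynomial

/-! ## Facts proved in part I -/

/-- conclusion of INV -/
def InvF : Prop := ∀ (s t : ℕ) (d S : ℤ) (a : T3), t ≤ s → Good s t d S a →
  Good s t d (S + t + 2 * s) (op1 a) ∧ Good s t d (S + t + 2 * s) (op2 a)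

/-- conclusion of LIN -/
def LinF : Prop :=
  (∀ (s t : ℕ) (d S : ℤ) (a b : T3), Good s t d S a → Good s t d S b → Good s t d S (fun i => a i + b i) ∧
    Good s t d S (fun i => a i - b i)) ∧
  (∀ (s t x y : ℕ) (d S : ℤ) (a : T3) (G : P2), DL x y G → Good s t d S a →
    Good s t d (S + x * t + y * s) (fun i => G * a i)) ∧
  (∀ (s t : ℕ) (d S S' : ℤ) (a : T3), S ≤ S' → Good s t d S a → Good s t d S' a)

/-- conclusion of DIVG -/
def DivF : Prop := ∀ (s t : ℕ) (d S : ℤ) (F : P2) (a : T3), 1 ≤ t → 1 ≤ s → ¬ XX ∣ F → ¬ YY ∣ F →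
  Good s t d S (fun i => F * a i) → Good s t d S a

/-! ## Part II: values -/

/-- PACKET SQR (1.2 h).
Proof.  In `ℚ[[X]]`: `B = ∑ be j X^j`.  `2 (j+1) be (j+1) = (2j+1) be j` (`Nat.succ_mul_centralBinom_succ`) says `2 (1-X) B' = B`, so
`(B² (1-X))' = 2 B B' (1-X) - B² = 0`, `B² (1-X) = 1` (constant coefficient `1`), `B² = 1/(1-X)`.  `al i = be i - be (i-1)` (`i ≥ 1`), i.e.
`A = (1-X) B`, so `A² = 1 - X`.  Compare coefficients.  `al i < 0` for `i ≥ 1` and `|al i| ≤ 1/2` (`al (i+1) / al i = (2i-1)/(2i+2)`, or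
`centralBinom i ≤ 4^i` and the case `i = 1`); `be i ≤ 1`.  Integrality: `centralBinom i / (2i-1) = 2 * catalan (i-1)` for `i ≥ 1`. -/
def S_SQR : Prop :=
  (∀ n : ℕ, ∑ z ∈ antidiagonal n, al z.1 * al z.2 = if n = 0 then 1 else if n = 1 then -1 else 0) ∧
  (∀ n : ℕ, ∑ z ∈ antidiagonal n, be z.1 * be z.2 = 1) ∧
  (al 0 = 1 ∧ be 0 = 1) ∧
  (∀ i : ℕ, |al i| ≤ 1 ∧ 0 ≤ be i ∧ be i ≤ 1) ∧
  (∀ i : ℕ, 1 ≤ i → al i < 0 ∧ |al i| ≤ 1 / 2) ∧
  (∀ i : ℕ, ∃ n : ℤ, 4 ^ i * al i = n) ∧ (∀ i : ℕ, ∃ n : ℤ, 4 ^ i * be i = n)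

/-- PACKET VQ (2.5 h).  The `q`-adic value.
Proof.  For rational numbers write `x ≡ 0 mod q^T` if `x m = q^T n` with integers `m, n`, `q ∤ m` (these `x` form a module over the ring of the
rational numbers with denominator prime to `q`).  `T ≥ 1` (otherwise trivial).  `f = ∑_{i+j<T} al i be j (q/p)^i q^j` (`p ≠ 0` as `q ∤ p`).
(a) `A(P) + B(P) f ≡ 0`: it is `∑_{k,l} p^k q^l m(k,l)`, `m(k,l) = cf A k l + ∑_{i+j<T} al i be j cf B (k+i) (l-i-j)` (finite sum, `l ≥ 0`).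
For `l < T` the restriction `i + j < T` is void and `m(k,l) = (cf A + act B fq) k l = 0`; for `l ≥ T` the term is `≡ 0` (the denominators are powers of
`2` and `p`).  (b) `(1-q) f² ≡ 1 - q/p`: `f ≡ a b` with `a = ∑_{i<T} al i (q/p)^i`, `b = ∑_{j<T} be j q^j` (the other terms contain `q^(i+j)`,
`i+j ≥ T`); `a² ≡ 1 - q/p` and `b² ≡ ∑_{n<T} q^n`, `(1-q) b² ≡ 1` by SQR.  (c) The hypothesis says `(1-q) w² ≡ 1 - q/p`.  So
`(1-q)(w-f)(w+f) ≡ 0`, `f ≡ 1`, `w ≡ 1 mod q`, so `(1-q)(w+f)` is a unit at `q` (`q` odd) and `w ≡ f mod q^T`.  So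
`A(P) + B(P) w ≡ A(P) + B(P) f ≡ 0`. -/
def S_VQ : Prop := S_SQR → ∀ (p q w : ℤ) (T : ℕ) (A B : P2), Prime q → 3 ≤ q → ¬ q ∣ p → q ∣ w - 1 →
  q ^ T ∣ p * (1 - q) * w ^ 2 - (p - q) → Cond 0 1 T (fun k l => cf A k l + act B fq k l) →
  q ^ T ∣ ev p q A + ev p q B * w

/-- PACKET VP (from VQ, 1 h).  The `p`-adic value: exchange `X` and `Y` (`Polynomial.Bivariate.swap`).
Proof.  `co (swap F) i j = co F j i`, so `ev q p (swap F) = ev p q F`, `cf (swap F) k l = cf F l k`, `act (swap F) fq k l = act F fp l k` (as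
`fp l k = fq k l`).  Apply VQ to `swap A`, `swap C` with `(q,p)` for `(p,q)`. -/
def S_VP : Prop := S_SQR → S_VQ → ∀ (p q w : ℤ) (T : ℕ) (A C : P2), Prime p → 3 ≤ p → ¬ p ∣ q → p ∣ w - 1 →
  p ^ T ∣ q * (1 - p) * w ^ 2 - (q - p) → Cond 1 0 T (fun k l => cf A k l + act C fp k l) →
  p ^ T ∣ ev p q A + ev p q C * w

/-- PACKET VI (3 h).  The real value.
Proof.  `U = p^s`, `V = q^t`, `E = exp(S/s log q)`; `log U ≤ log V = t log q`, `log U ≥ log V - log 2`.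
`I = {(i,j) : i t + j s < 2 s t}`, so `i < 2s`, `j < 2t`, `#I ≤ 4 s²`.  `F = ∑_I al i be j p^(-i) q^(-j)`.
(1) `Z = C(P) + d B(P) F = ∑_{k,l} m(k,l) p^k q^l`, `m(k,l) = cf C k l + d ∑_I al i be j cf B (k+i) (l+j)`.  If `k t + l s > S - s t` then
`m(k,l) = 0`: for `(i,j) ∉ I`, `i, j ≥ 0`, the second condition gives `cf B (k+i) (l+j) = 0`, so the sum over `I` is `act B fi k l`.  If `k t + l s ≤ S - s t`
and `m(k,l) ≠ 0` then `k > -2s`, and `k log p ≤ (k/s) log V + 2 log 2` (for `k ≥ 0` from `log U ≤ log V`, for `k < 0` from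
`log U ≥ log V - log 2`), `l log q = (l/t) log V`, so `p^k q^l ≤ 4 exp((S/s - t) log q) = 4 E / V`.  `∑ |m(k,l)| ≤ len C + 4 s² len B`.
So `|V Z| ≤ 4 (len C + 4 s² len B) E`.
(2) `r = U/V`, `1/2 ≤ r < 1`.  The equation says `r² (1-1/q) = (1-1/p) + e1`, `e1 = (q-p)/(p q V²)`, `0 ≤ e1 ≤ V^(-2)`.
`F² (1-1/q) = (1-1/p) + e2`: expand; the terms `x^n y^m` (`x = 1/p`, `y = 1/q`) with `n t + m s < 2 s t` give `1 - x` (SQR: all pairs with this sum lie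
in `I`), there are at most `2 (4s²)²` other terms, with coefficients at most `1` in absolute value, `n < 4s`, and
`p^(-n) q^(-m) ≤ 16 V^(-2)` (`-n log p ≤ -(n/s)(log V - log 2)`).  So `|e2| ≤ 512 s⁴ V^(-2)`.
`F ≥ 0`: for fixed `j` the sum over `i` is at least `1 - (1/2)(x + x² + ...) ≥ 0` (`x ≤ 1/2`).  So `|r - F| (r + F)(1 - 1/q) ≤ |e1| + |e2|` gives
`|r - F| ≤ 4 (1 + 512 s⁴) V^(-2) ≤ 2052 s⁴ V^(-2)`.  `|B(P)| ≤ len B exp((S/s + t) log q) = len B E V` (monomials of `B`: `i t + j s ≤ S + s t`).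
So `|V B(P) (r - F)| ≤ 2052 s⁴ len B E`.
(3) `B(P) U d + C(P) V = V Z + V d B(P) (r - F)`, so at most `(4 len C + 16 s² len B + 2052 s⁴ len B) E`. -/
def S_VI : Prop := S_SQR → S_LEN → ∀ (s t p q : ℕ) (d S : ℤ) (B C : P2), 2 ≤ p → p < q → 1 ≤ t → t ≤ s →
  p ^ s < q ^ t → q ^ t ≤ 2 * p ^ s →
  ((q : ℤ) - 1) * p * ((p : ℤ) ^ s) ^ 2 = ((p : ℤ) - 1) * (q : ℤ) ^ (2 * t + 1) + ((q : ℤ) - p) →
  (d = 1 ∨ d = -1) →
  Cond (-t) (-s) (-(S - s * t)) (fun k l => cf C k l + d * act B fi k l) →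
  Cond (-t) (-s) (-(S + s * t)) (cf B) →
  |(ev p q B : ℝ) * (p : ℝ) ^ s * d + (ev p q C : ℝ) * (q : ℝ) ^ t| ≤
    2100 * (s : ℝ) ^ 4 * ((len B : ℝ) + len C) * Real.exp ((S : ℝ) / s * Real.log q)

/-- PACKET VAL (from VQ, VP, VI, 1.8 h).
Proof.  `N = NN p q w1 w2 a`, suppose `N ≠ 0`.  `w1 = ± p^s`, `w2 = ± q^t`.  The equation gives `p (1-q) w1² - (p-q) = -(p-1) q^(2t+1)` and
`q (1-p) w2² - (q-p) = -(q-1) p (p^s)²`.  VQ with `T = 2t`: `q^(2t)` divides `A(P) + B(P) w1`, and `C(P) w2` (c2: `q^t ∣ C(P)`).  VP with `T = 2t ≤ 2s+1`: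
`p^(2t)` divides `A(P) + C(P) w2`, and `B(P) w1` (c4: `p^(2t-s) ∣ B(P)` if `2t ≥ s`, `p^s ∣ w1`).  So `(pq)^(2t)` divides `N`.
Multiply `N` by the sign of `w2`: `|N| ≤ |A(P)| + |C(P) q^t + d B(P) p^s|`.  `|A(P)| ≤ len A exp(S/s log q)` (monomials of `A`:
`i t + j s ≤ S`, `i log p + j log q ≤ (i t + j s)/s log q` as `p^s < q^t`).  With VI: `|N| ≤ 2100 s⁴ L exp(S/s log q)`, `L` = the sum of the lengths.
`2t log q + 2t log p ≤ log |N|` and `log p ≥ (t log q - log 2)/s`, `t ≤ s`, so `(2t + 2t²/s - S/s) log q ≤ log(2100 s⁴ L) + 2 log 2`. -/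
def S_VAL : Prop := S_SQR → S_LEN → S_VQ → S_VP → S_VI →
  ∀ (s t p q : ℕ) (w1 w2 d S : ℤ) (a : T3), Sol s t p q w1 w2 d → Good s t d S a →
    NN p q w1 w2 a = 0 ∨ (2 * (s : ℝ) * t + 2 * (t : ℝ) ^ 2 - S) / s * Real.log q ≤
      Real.log (8400 * (s : ℝ) ^ 4 * ((len (a 0) : ℝ) + len (a 1) + len (a 2)))

/-- conclusion of VAL -/
def ValF : Prop :=
  ∀ (s t p q : ℕ) (w1 w2 d S : ℤ) (a : T3), Sol s t p q w1 w2 d → Good s t d S a →
    NN p q w1 w2 a = 0 ∨ (2 * (s : ℝ) * t + 2 * (t : ℝ) ^ 2 - S) / s * Real.log q ≤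
      Real.log (8400 * (s : ℝ) ^ 4 * ((len (a 0) : ℝ) + len (a 1) + len (a 2)))

/-- PACKET OPL (0.8 h).
Proof.  One step: `len (EE D1 F + th F) ≤ 16 D len F + 8 len F`, degree `≤ D + 2`.  Induction on `n` (or on `w`); the factors are at least `1`. -/
def S_OPL : Prop := S_LEN → S_DEG → ∀ (a : T3) (D H n : ℕ), (∀ i, DL D D (a i) ∧ len (a i) ≤ H) →
  ∀ w : List Bool, w.length ≤ n → ∀ i, DL (D + 2 * n) (D + 2 * n) (opw w a i) ∧
    len (opw w a i) ≤ (16 * (D + 2 * n) + 8) ^ n * H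

/-- PACKET WRD (from INV, VAL, OPL; 1.5 h).  All derivatives of order at most `t/300` vanish.
Proof.  `n = w.length ≤ t/300`.  By induction `Good s t d (S + n (t + 2s)) (opw w a)`, and `t + 2s ≤ 3s`, so
`(2st + 2t² - S - 3ns)/s ≥ 0.02 t - 3n ≥ 0.01 t`.  The lengths are at most `(16 (K0 t + 2n) + 8)^n K0^t ≤ (40 K0 t)^(t/300) K0^t` (take `K0 ≥ 1`;
`K0 = 0` is trivial, as `len` would be `0` or `t = 0`).  If the value is not zero then VAL gives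
`0.01 t log q ≤ log 8400 + 4 log (K0 t) + log 3 + (t/300) log (40 K0 t) + t log K0 ≤ C t (1 + log t)`, with `C` depending on `K0`,
a contradiction if `K > 100 C`. -/
def S_WRD : Prop := S_LEN → S_DEG → S_OPL → InvF → ValF → ∀ K0 : ℕ, ∃ K : ℕ,
  ∀ (s t p q : ℕ) (w1 w2 d S : ℤ) (a : T3), Sol s t p q w1 w2 d → s ≤ K0 * t → Good s t d S a →
    100 * S ≤ 198 * s * t + 200 * t ^ 2 → (∀ i, DL (K0 * t) (K0 * t) (a i) ∧ len (a i) ≤ K0 ^ t) →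
    (K : ℝ) * (1 + Real.log t) ≤ Real.log q →
    ∀ w : List Bool, 300 * w.length ≤ t → NN p q w1 w2 (opw w a) = 0

/-! ## Part III: the auxiliary triple -/

/-- PACKET SIEG (Siegel's lemma, 0.7 h).
Proof.  If `κ` is empty take `c = 1`.  Otherwise `Int.Matrix.exists_ne_zero_int_vec_norm_le (Matrix.of a)`; the exponent `m/(n-m)` is at most `e`, and the
base is between `1` and `card ι * B`. -/
def S_SIEG : Prop := ∀ (ι κ : Type) [Fintype ι] [Fintype κ] [Nonempty ι] (a : κ → ι → ℤ) (B e : ℕ), 1 ≤ B →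
  (∀ k i, |a k i| ≤ B) → Fintype.card κ < Fintype.card ι → (e + 1) * Fintype.card κ ≤ e * Fintype.card ι →
  ∃ c : ι → ℤ, c ≠ 0 ∧ (∀ k, ∑ i, a k i * c i = 0) ∧ ∀ i, |c i| ≤ ((Fintype.card ι : ℤ) * B) ^ e

/-- PACKET EQG (1.5 h).  The equations imply the conditions.
Proof.  c1 at `(k,l)`, `l < 2t`.  `act B fq k l = ∑ co B i j fq (k-i) (l-j)`; `fq (k',l') ≠ 0` implies `k' ≤ 0`, `k'+l' ≥ 0`, `l' ≥ 0`.  So everything is `0`
if `l < 0` or `k > al`; if `k < min 0 (2t-s-l)` then `cf A k l = 0` (`k < 0`) and a nonzero term has `i ≥ max 0 (2t-s)` (e5) and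
`k ≥ i + j - l ≥ 2t-s-l` and (as `k - i + l - j ≥ 0`) `k ≥ -l`; here use the bound in the form given: for `2t ≤ s` the range in e1 is `k ≥ -l`.
c3: the same with `X`, `Y` exchanged (e2, e6).  c5: `cf A k l ≠ 0` implies `0 ≤ k ≤ al`, `0 ≤ l ≤ b`, then e4.  c6: nonzero terms imply
`k ≤ al`, `l ≤ b`, then e3.  c7: `cf B k l ≠ 0` implies `k t + l s ≤ al t + b s = S + s t`.  c2, c4: e6, e5. -/
def S_EQG : Prop := ∀ (s t m b : ℕ) (d S : ℤ) (a : T3), 1 ≤ t → t ≤ s → S = m * t + b * s - s * t →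
  (∀ i, DL m b (a i)) →
  (∀ k l : ℤ, 0 ≤ l → l < 2 * t → min 0 (max (2 * (t : ℤ) - s) 0 - l) ≤ k → k ≤ m →
    cf (a 0) k l + act (a 1) fq k l = 0) →
  (∀ k l : ℤ, 0 ≤ k → k < 2 * t → min 0 ((t : ℤ) - k) ≤ l → l ≤ b → cf (a 0) k l + act (a 2) fp k l = 0) →
  (∀ k l : ℤ, k ≤ m → l ≤ b → (m - k) * t + (b - l) * s < 2 * s * t →
    cf (a 2) k l + d * act (a 1) fi k l = 0) →
  (∀ k l : ℤ, k ≤ m → l ≤ b → (m - k) * t + (b - l) * s < s * t → cf (a 0) k l = 0) →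
  (∀ i j : ℕ, (i : ℤ) < 2 * t - s → co (a 1) i j = 0) →
  (∀ i j : ℕ, j < t → co (a 2) i j = 0) → Good s t d S a

/-- the number of equations (with `x = max 0 (2t-s)`) -/
def Meq (s t m b x : ℕ) : ℕ := (2 * t * (m + 1) + (2 * t - x) * (2 * t - x - 1) / 2) +
  (2 * t * (b + 1) + t * (t - 1) / 2) + (2 * s * t + s + 2 * t) + (s * t + s + 2 * t) / 2 + x * (b + 1) + t * (m + 1)

/-- PACKET CTN (arithmetic, 1.2 h).
Proof.  `u = m+1 ≥ 0.66 s + 2t`, `v = b+1 ≥ 2.32 t`.  `3uv - Meq ≥ 3uv - 3tu - (2t+x)v - (2t-x)²/2 - t²/2 - 2.5 st - 1.5 s - 3t`, which is increasing in `u`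
(`v ≥ t`) and in `v` (`3u ≥ 2t + x`), so it is at least `2.6136 st + 3.28 t² - 2.32 t x - (2t-x)²/2 - t²/2 - 2.5 st - 1.5 s - 3t`.
If `s ≥ 2t` (`x = 0`): `0.1136 st + 0.78 t² - 1.5 s - 3t`.  If `s ≤ 2t` (`x = 2t-s`): `2.4336 st - 1.86 t² - 0.5 s² - 1.5 s - 3t`, and
`2.4336 st - 1.86 t² - 0.5 s² ≥ 0.07 st` for `t ≤ s ≤ 2t` (concave in `s`, check `s = t` and `s = 2t`; e.g. it is
`0.5 (s-t)(2t-s) + ...`).  In both cases `3uv - Meq ≥ 0.07 st - 1.5 s - 3t ≥ 0.05 st` (`t ≥ 225`).  `3uv ≤ 3 (2.66 s + 1)(2.32 t + 1) ≤ 27 st`.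
So `Meq ≤ 27 st ≤ 540 (3uv - Meq)`. -/
def S_CTN : Prop := ∀ s t m b x : ℕ, 225 ≤ t → t ≤ s → m = 66 * s / 100 + 2 * t → b = 232 * t / 100 → x = 2 * t - s →
  541 * Meq s t m b x ≤ 540 * (3 * (m + 1) * (b + 1)) ∧ Meq s t m b x < 3 * (m + 1) * (b + 1) ∧
  3 * (m + 1) * (b + 1) ≤ 27 * s * t

/-- PACKET LAT (0.8 h).  Lattice points.
Proof.  `j < n t`; for fixed `j` the number of `i` is at most `(n t - j) s / t + 1` (real number); the sum over `j < n t` is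
`(s/t) (nt)(nt+1)/2 + n t = n² s t/2 + n s/2 + n t`. -/
def S_LAT : Prop := ∀ s t n : ℕ, 1 ≤ t → 1 ≤ s →
  2 * (((range (n * s)) ×ˢ (range (n * t))).filter (fun z => z.1 * t + z.2 * s < n * s * t)).card ≤
    n ^ 2 * s * t + n * s + 2 * n * t

/-- PACKET EXI (3 h).  The auxiliary triple.
Proof.  `T0 = 225`, `m = 66s/100 + 2t`, `b = 232t/100`, `S = m t + b s - s t`; so `100 S ≤ 198 st + 200 t²`, `m ≤ 3s`, `b ≤ 3t`.
Unknowns: the coefficients of `a 0, a 1, a 2` in the box `i ≤ m`, `j ≤ b`: `3(m+1)(b+1)` unknowns.  Equations: e1, ..., e6 of EQG, multiplied by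
`4^(4s)`: the coefficients are integers of absolute value at most `4^(4s)` (the occurring products `al i' be j'` have `i' + j' ≤ 2t` in e1, e2, and
`i' < 2s`, `j' < 2t` in e3; SQR).  Number of equations at most `Meq s t m b x`, `x = max 0 (2t-s)`:
e1: for `l < 2t` there are `m + 1 + max 0 (l-x)` values of `k`; e2: for `k < 2t` there are `b + 1 + max 0 (k-t)` values of `l`;
e3, e4: LAT with `n = 2`, `n = 1` (`i = m-k`, `j = b-l`); e5: `x (b+1)`; e6: `t (m+1)`.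
SIEG with `e = 540` (CTN): a solution `≠ 0` with coefficients at most `(27 s² 4^(4s))^540`, so `len ≤ (3s+1)(3t+1) (27 s² 4^(4s))^540 ≤ K^s`. -/
def S_EXI : Prop := S_SIEG → S_EQG → S_CTN → S_LAT → S_SQR → S_LEN → ∃ K : ℕ, ∀ (s t : ℕ) (d : ℤ), (d = 1 ∨ d = -1) →
  225 ≤ t → t ≤ s → ∃ (a : T3) (S : ℤ), a ≠ 0 ∧ Good s t d S a ∧ 100 * S ≤ 198 * s * t + 200 * t ^ 2 ∧
    ∀ i, DL (3 * s) (3 * t) (a i) ∧ len (a i) ≤ K ^ s

end Pool.Agent.Helper7.OV
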