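import Pool.Agent.Helper7.OV.Bridge

/-!
# Project OV: growth of degrees and lengths under `naX`, `naY`
-/

set_option autoImplicit false

open Finset

namespace Pool.Agent.Helper7.OV

open scoped Polynomial
open Pool.Agent.Helper84.OV (nrm DX naX naY nab evt nrm_mul nrm_add nrm_sub nrm_neg nrm_XX nrm_YY nrm_one
  nrm_dX nrm_deriv DX_XX DX_YY DX_one dX)

/-- degrees and length together -/
def Bd (n H : ℕ) (F : P2) : Prop := DX n F ∧ F.natDegree ≤ n ∧ nrm F ≤ H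

theorem Bd.mono {n n' H H' : ℕ} {F : P2} (h : Bd n H F) (hn : n ≤ n') (hH : H ≤ H') : Bd n' H' F :=
  ⟨h.1.mono hn, h.2.1.trans hn, h.2.2.trans hH⟩

theorem Bd.mul {n n' H H' : ℕ} {F G : P2} (h : Bd n H F) (h' : Bd n' H' G) : Bd (n + n') (H * H') (F * G) :=
  ⟨h.1.mul h'.1, Polynomial.natDegree_mul_le.trans (add_le_add h.2.1 h'.2.1),
    (nrm_mul _ _).trans (Nat.mul_le_mul h.2.2 h'.2.2)⟩

theorem Bd.add {n H H' : ℕ} {F G : P2} (h : Bd n H F) (h' : Bd n H' G) : Bd n (H + H') (F + G) :=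
  ⟨h.1.add h'.1, (Polynomial.natDegree_add_le _ _).trans (max_le h.2.1 h'.2.1),
    (nrm_add _ _).trans (add_le_add h.2.2 h'.2.2)⟩

theorem Bd.sub {n H H' : ℕ} {F G : P2} (h : Bd n H F) (h' : Bd n H' G) : Bd n (H + H') (F - G) :=
  ⟨h.1.sub h'.1, (Polynomial.natDegree_sub_le _ _).trans (max_le h.2.1 h'.2.1),
    (nrm_sub _ _).trans (add_le_add h.2.2 h'.2.2)⟩

theorem Bd_one : Bd 0 1 (1 : P2) := ⟨DX_one, by simp, nrm_one.le⟩

theorem Bd_two : Bd 0 2 (2 : P2) := by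
  have := Bd_one.add Bd_one
  norm_num at this
  exact this

theorem Bd_XX : Bd 1 1 XX := ⟨DX_XX, by simp [XX], nrm_XX.le⟩
theorem Bd_YY : Bd 1 1 YY := ⟨DX_YY.mono (by omega), by simp [YY], nrm_YY.le⟩

theorem Bd_1X : Bd 1 2 (1 - XX) := (Bd_one.mono (by omega) le_rfl).sub Bd_XX
theorem Bd_1Y : Bd 1 2 (1 - YY) := (Bd_one.mono (by omega) le_rfl).sub Bd_YY
theorem Bd_XY : Bd 1 2 (XX - YY) := Bd_XX.sub Bd_YY

/-- degrees in `X` and `Y` separately -/
def Bs (m n H : ℕ) (F : P2) : Prop := DX m F ∧ F.natDegree ≤ n ∧ nrm F ≤ H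

theorem Bs.mul {m n m' n' H H' : ℕ} {F G : P2} (h : Bs m n H F) (h' : Bs m' n' H' G) :
    Bs (m + m') (n + n') (H * H') (F * G) :=
  ⟨h.1.mul h'.1, Polynomial.natDegree_mul_le.trans (add_le_add h.2.1 h'.2.1),
    (nrm_mul _ _).trans (Nat.mul_le_mul h.2.2 h'.2.2)⟩

theorem Bs_1X : Bs 1 0 2 (1 - XX) := by
  refine ⟨(DX_one.mono (by omega)).sub DX_XX, ?_, Bd_1X.2.2⟩
  refine (Polynomial.natDegree_sub_le _ _).trans ?_
  simp [XX]

theorem Bs_1Y : Bs 0 1 2 (1 - YY) := by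
  refine ⟨DX_one.sub DX_YY, ?_, Bd_1Y.2.2⟩
  refine (Polynomial.natDegree_sub_le _ _).trans ?_
  simp [YY]

theorem Bs_XY : Bs 1 1 2 (XX - YY) := Bd_XY
theorem Bs_X : Bs 1 0 1 XX := ⟨DX_XX, by simp [XX], nrm_XX.le⟩
theorem Bs_Y : Bs 0 1 1 YY := ⟨DX_YY, by simp [YY], nrm_YY.le⟩
theorem Bs_2 : Bs 0 0 2 (2 : P2) := Bd_two

theorem Bd_EE : Bd 3 16 Pool.Agent.Helper84.OV.EE :=
  ((((Bs_2.mul Bs_X).mul Bs_Y).mul Bs_1X).mul Bs_1Y).mul Bs_XY

theorem Bd_c1 : Bd 3 4 (YY ^ 2 * (1 - XX) * (1 - YY)) := by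
  have h := ((Bs_Y.mul Bs_Y).mul Bs_1X).mul Bs_1Y
  rw [show (YY ^ 2 * (1 - XX) * (1 - YY) : P2) = YY * YY * (1 - XX) * (1 - YY) by ring]
  exact ⟨h.1.mono (by omega), h.2.1.trans (by omega), h.2.2.trans (by omega)⟩

theorem Bd_c2 : Bd 3 4 (XX * YY * (1 - YY) ^ 2) := by
  have h := (Bs_X.mul Bs_Y).mul (Bs_1Y.mul Bs_1Y)
  rw [show (XX * YY * (1 - YY) ^ 2 : P2) = XX * YY * ((1 - YY) * (1 - YY)) by ring]
  exact ⟨h.1.mono (by omega), h.2.1.trans (by omega), h.2.2.trans (by omega)⟩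

theorem Bd_c3 : Bd 3 4 (XX * YY * (1 - XX) ^ 2) := by
  have h := (Bs_X.mul Bs_Y).mul (Bs_1X.mul Bs_1X)
  rw [show (XX * YY * (1 - XX) ^ 2 : P2) = XX * YY * ((1 - XX) * (1 - XX)) by ring]
  exact ⟨h.1.mono (by omega), h.2.1.trans (by omega), h.2.2.trans (by omega)⟩

theorem Bd_c4 : Bd 3 4 (XX ^ 2 * (1 - XX) * (1 - YY)) := by
  have h := ((Bs_X.mul Bs_X).mul Bs_1X).mul Bs_1Y
  rw [show (XX ^ 2 * (1 - XX) * (1 - YY) : P2) = XX * XX * (1 - XX) * (1 - YY) by ring]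
  exact ⟨h.1.mono (by omega), h.2.1.trans (by omega), h.2.2.trans (by omega)⟩

theorem Bd.dX {N H : ℕ} {F : P2} (h : Bd N H F) : Bd N (N * H) (dX F) := by
  refine ⟨h.1.dX, ?_, (nrm_dX F N h.1).trans (Nat.mul_le_mul_left _ h.2.2)⟩
  refine (Polynomial.natDegree_sum_le_of_forall_le _ _ fun j hj => ?_)
  rw [mem_range] at hj
  exact (Polynomial.natDegree_monomial_le _).trans (by have := h.2.1; omega)

theorem Bd.deriv {N H : ℕ} {F : P2} (h : Bd N H F) : Bd N (N * H) (Polynomial.derivative F) := by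
  refine ⟨h.1.deriv, ?_, (nrm_deriv F N h.2.1).trans (Nat.mul_le_mul_left _ h.2.2)⟩
  exact (Polynomial.natDegree_derivative_le _).trans (by have := h.2.1; omega)

theorem step_bd {N H : ℕ} (hN : 1 ≤ N) {a : T3} (h : ∀ i, Bd N H (a i)) :
    (∀ i, Bd (N + 3) (20 * N * H) (naX a i)) ∧ (∀ i, Bd (N + 3) (20 * N * H) (naY a i)) := by
  have hNH : 4 * H ≤ 4 * N * H := by nlinarith [Nat.zero_le H]
  have hX : Pool.Agent.Helper84.OV.XX = XX := rfl
  have hY : Pool.Agent.Helper84.OV.YY = YY := rfl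
  have key1 : ∀ (i : Fin 3) (c : P2), Bd 3 4 c →
      Bd (N + 3) (20 * N * H) (Pool.Agent.Helper84.OV.EE * dX (a i) + c * a i) := by
    intro i c hc
    have h1 := Bd_EE.mul (h i).dX
    have h2 := hc.mul (h i)
    refine (h1.add h2).mono (by omega) ?_
    nlinarith
  have key2 : ∀ (i : Fin 3) (c : P2), Bd 3 4 c →
      Bd (N + 3) (20 * N * H) (Pool.Agent.Helper84.OV.EE * Polynomial.derivative (a i) - c * a i) := by
    intro i c hc
    have h1 := Bd_EE.mul (h i).deriv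
    have h2 := hc.mul (h i)
    refine (h1.sub h2).mono (by omega) ?_
    nlinarith
  constructor
  · intro i
    unfold naX
    rw [hX, hY]
    fin_cases i
    · simp only [Fin.zero_eta, Matrix.cons_val_zero]
      exact (Bd_EE.mul (h 0).dX).mono (by omega) (by nlinarith)
    · simp only [Fin.mk_one, Matrix.cons_val_one, Matrix.cons_val_zero]
      exact key1 1 _ Bd_c1
    · simp only [Fin.reduceFinMk, Matrix.cons_val]
      exact key1 2 _ Bd_c2
  · intro i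
    unfold naY
    rw [hX, hY]
    fin_cases i
    · simp only [Fin.zero_eta, Matrix.cons_val_zero]
      exact (Bd_EE.mul (h 0).deriv).mono (by omega) (by nlinarith)
    · simp only [Fin.mk_one, Matrix.cons_val_one, Matrix.cons_val_zero]
      exact key2 1 _ Bd_c3
    · simp only [Fin.reduceFinMk, Matrix.cons_val]
      exact key2 2 _ Bd_c4

theorem nab_bd {N H : ℕ} (hN : 1 ≤ N) {a : T3} (h : ∀ i, Bd N H (a i)) :
    ∀ (w : List Bool) (n : ℕ), w.length ≤ n →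
      ∀ i, Bd (N + 3 * w.length) ((20 * (N + 3 * n)) ^ w.length * H) (nab w a i)
  | [], n, _ => by simpa [nab] using h
  | true :: w, n, hn => by
      rw [List.length_cons] at hn
      intro i
      have h1 := nab_bd hN h w n (by omega)
      have h2 := (step_bd (by omega) h1).1 i
      refine h2.mono (by rw [List.length_cons]; omega) ?_
      rw [List.length_cons, pow_succ]
      have h3 : 20 * (N + 3 * w.length) ≤ 20 * (N + 3 * n) := by omega
      calc 20 * (N + 3 * w.length) * ((20 * (N + 3 * n)) ^ w.length * H)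
          ≤ 20 * (N + 3 * n) * ((20 * (N + 3 * n)) ^ w.length * H) := Nat.mul_le_mul_right _ h3
        _ = _ := by ring
  | false :: w, n, hn => by
      rw [List.length_cons] at hn
      intro i
      have h1 := nab_bd hN h w n (by omega)
      have h2 := (step_bd (by omega) h1).2 i
      refine h2.mono (by rw [List.length_cons]; omega) ?_
      rw [List.length_cons, pow_succ]
      have h3 : 20 * (N + 3 * w.length) ≤ 20 * (N + 3 * n) := by omega
      calc 20 * (N + 3 * w.length) * ((20 * (N + 3 * n)) ^ w.length * H)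
          ≤ 20 * (N + 3 * n) * ((20 * (N + 3 * n)) ^ w.length * H) := Nat.mul_le_mul_right _ h3
        _ = _ := by ring

/-- the lengths of `nab w a` for short words -/
theorem nab_len {N H n : ℕ} (hN : 1 ≤ N) {a : T3} (h : ∀ i, Bd N H (a i)) (w : List Bool) (hw : w.length ≤ n) (i : Fin 3) :
    len (nab w a i) ≤ (20 * (N + 3 * n)) ^ n * H := by
  have h1 := (nab_bd hN h w n hw i).2.2
  have h2 : (20 * (N + 3 * n)) ^ w.length ≤ (20 * (N + 3 * n)) ^ n :=
    Nat.pow_le_pow_right (by omega) hw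
  exact h1.trans (Nat.mul_le_mul_right _ h2)

end Pool.Agent.Helper7.OV
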