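import Pool.Agent.Helper7.OV.Final
import Pool.Agent.Helper20.OV.DIVC
import Pool.Agent.Helper27.OV.SIEG
import Pool.Agent.Helper34.OV.LAT
import Pool.Agent.Helper35.OV.VP
import Pool.Agent.Helper37.OV.ODE
import Pool.Agent.Helper4.OV.CTN
import Pool.Agent.Helper51.OV.DEG
import Pool.Agent.Helper53.OV.LIN
import Pool.Agent.Helper53.OV.VI
import Pool.Agent.Helper63.OV.INV
import Pool.Agent.Helper64.OV.VAL
import Pool.Agent.Helper66.OV.WT
import Pool.Agent.Helper78.OV.DIVG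
import Pool.Agent.Helper78.OV.SQR
import Pool.Agent.Helper78.OV.VQ
import Pool.Agent.Helper91.OV.ACT
import Pool.Agent.Helper93.OV.EXI
import Pool.Agent.Helper96.OV.LEN
import Pool.Agent.Helper43.OV.DER
import Pool.Agent.Helper71.OV.EQG
import Pool.Agent.Helper84.OV.ZMain
import Pool.Agent.Helper84.BT.Main

/-!
# Project OV: all packets put together
-/

set_option autoImplicit false

open Finset

namespace Pool.Agent.Helper7.OV

open Pool.Agent.Helper7.BM (sg)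

theorem pOde : Ode := Helper37.OV.ODE.t Helper91.OV.ACT.t

theorem pInv : InvF := Helper63.OV.INV.t Helper91.OV.ACT.t Helper66.OV.WT.t Helper43.OV.DER.t pOde

theorem pLin : LinF := Helper53.OV.LIN.t Helper91.OV.ACT.t Helper66.OV.WT.t Helper51.OV.DEG.t

theorem pDiv : DivF := Helper78.OV.DIVG.t Helper20.OV.DIVC.t Helper91.OV.ACT.t

theorem pVal : ValF := Helper64.OV.VAL.t Helper78.OV.SQR.t Helper96.OV.LEN.t Helper78.OV.VQ.t Helper35.OV.VP.t
  Helper53.OV.VI.t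

theorem pExi : ExiF := Helper93.OV.EXI.t Helper27.OV.SIEG.t Helper71.OV.EQG.t Helper4.OV.CTN.t Helper34.OV.LAT.t
  Helper78.OV.SQR.t Helper96.OV.LEN.t

/-- the smaller prime is bounded -/
theorem pBound : ∃ P : ℕ, ∀ p q s t : ℕ, p.Prime → q.Prime → p < q → 1 ≤ s → 1 ≤ t →
    sg p (2 * s) = sg q (2 * t) → p ≤ P :=
  bound_p Pool.Agent.Helper84.OV.pZE pExi pInv pLin pDiv pVal Pool.Agent.Helper7.BM.pE Helper32.BT.CB.t
    Helper87.BT.RSQ.t Helper13.BT.RVA.t Helper32.BT.RUN.t Helper78.BT.EQN.t Pool.Agent.Helper84.BT.pTH1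

/-- only finitely many solutions with odd common value -/
theorem pFinite : {x : ℕ × ℕ × ℕ × ℕ | x.1.Prime ∧ x.2.2.1.Prime ∧ x.1 < x.2.2.1 ∧ 1 ≤ x.2.1 ∧ 1 ≤ x.2.2.2 ∧
      sg x.1 x.2.1 = sg x.2.2.1 x.2.2.2 ∧ Odd (sg x.1 x.2.1)}.Finite :=
  finite_of_bound (bound_all pBound Helper89.BT.EVN.t Helper39.BT.PAR.t Pool.Agent.Helper84.BT.pTH3)

end Pool.Agent.Helper7.OV
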